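import Mathlib
import Pool.Agent.helper68.AM.Spec

/-!
Project AM, module S2: Möbius sum of the sawtooth sum of a resonant triangle
(from SB, MP, NI).
-/

set_option autoImplicit false

namespace AM

open Pool.Agent.helper72.Sq Finset

lemma S2_ps_abs (t : ℝ) : |ps t| ≤ 1 / 2 := by
  unfold ps
  have h1 := Int.fract_nonneg t
  have h2 := (Int.fract_lt_one t).le
  rw [abs_le]
  constructor <;> linarith

lemma S2_mu_abs (n : ℕ) : |mu n| ≤ 1 := by
  unfold mu
  have h := ArithmeticFunction.abs_moebius_le_one (n := n)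
  have : ((|ArithmeticFunction.moebius n| : ℤ) : ℝ) ≤ ((1 : ℤ) : ℝ) := by exact_mod_cast h
  simpa using this

/-- blocks of length `s` -/
lemma S2_blocks (f : ℕ → ℝ) (s m : ℕ) :
    ∑ q ∈ range (m * s), f q = ∑ i ∈ range m, ∑ k ∈ range s, f (i * s + k) := by
  induction m with
  | zero => simp
  | succ m ih =>
    rw [Finset.sum_range_succ, ← ih, Nat.succ_mul, Finset.sum_range_add]

/-- decomposition of the sawtooth sum into full blocks and a rest -/
lemma S2_decomp (l1 l2 r : ℝ) (s : ℕ) (hs : 1 ≤ s) :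
    |SS l1 l2 r - ∑ i ∈ range ((⌊r / l2⌋₊ + 1) / s), ∑ k ∈ range s,
      ps ((r / l1 - i * s * (l2 / l1)) - k * (l2 / l1))| ≤ s / 2 := by
  set N := ⌊r / l2⌋₊ + 1 with hN
  have hdm : N = N / s * s + N % s := by rw [mul_comm]; exact (Nat.div_add_mod N s).symm
  have e1 : SS l1 l2 r = ∑ q ∈ range (N / s * s + N % s), ps (r / l1 - q * (l2 / l1)) := by
    rw [← hdm]; rfl
  rw [e1, Finset.sum_range_add, S2_blocks]
  have e2 : ∑ i ∈ range (N / s), ∑ k ∈ range s, ps (r / l1 - ((i * s + k : ℕ) : ℝ) * (l2 / l1))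
      = ∑ i ∈ range (N / s), ∑ k ∈ range s,
        ps ((r / l1 - i * s * (l2 / l1)) - k * (l2 / l1)) := by
    refine Finset.sum_congr rfl fun i _ => Finset.sum_congr rfl fun k _ => ?_
    congr 1
    push_cast
    ring
  rw [e2, add_sub_cancel_left]
  calc |∑ x ∈ range (N % s), ps (r / l1 - ((N / s * s + x : ℕ) : ℝ) * (l2 / l1))|
      ≤ ∑ x ∈ range (N % s), |ps (r / l1 - ((N / s * s + x : ℕ) : ℝ) * (l2 / l1))| :=
        Finset.abs_sum_le_sum_abs _ _
    _ ≤ ∑ x ∈ range (N % s), (1 / 2 : ℝ) := Finset.sum_le_sum fun x _ => S2_ps_abs _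
    _ = (N % s : ℕ) / 2 := by rw [Finset.sum_const, Finset.card_range, nsmul_eq_mul]; ring
    _ ≤ s / 2 := by
        have : (N % s : ℕ) ≤ s := (Nat.mod_lt _ (by omega)).le
        have : ((N % s : ℕ) : ℝ) ≤ s := by exact_mod_cast this
        linarith

/-- the set of `d` with `i < n d`, `n` antitone, is an initial interval -/
lemma S2_initial (n : ℕ → ℕ) (hn : ∀ d d' : ℕ, 1 ≤ d → d ≤ d' → n d' ≤ n d) (i N1 N2 : ℕ) :
    ∃ N' : ℕ, N' ≤ N2 ∧ (Ioc N1 N2).filter (fun d => i < n d) = Ioc N1 N' := by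
  classical
  let P : ℕ → Prop := fun d => i < n d ∨ d ≤ N1
  refine ⟨Nat.findGreatest P N2, Nat.findGreatest_le _, ?_⟩
  ext d
  simp only [Finset.mem_filter, Finset.mem_Ioc]
  constructor
  · rintro ⟨⟨h1, h2⟩, h3⟩
    exact ⟨h1, Nat.le_findGreatest h2 (Or.inl h3)⟩
  · rintro ⟨h1, h2⟩
    have h4 : d ≤ N2 := h2.trans (Nat.findGreatest_le _)
    refine ⟨⟨h1, h4⟩, ?_⟩
    have hP : P (Nat.findGreatest P N2) := Nat.findGreatest_spec (m := 0) (Nat.zero_le _)
      (Or.inr (Nat.zero_le _))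
    rcases hP with h5 | h5
    · exact lt_of_lt_of_le h5 (hn _ _ (by omega) h2)
    · omega

lemma S2_growth_aux (A : ℝ) (k : ℕ) : ∀ᶠ j : ℕ in Filter.atTop, A * (j : ℝ) ^ k ≤ 2 ^ j := by
  have h := tendsto_pow_const_div_const_pow_of_one_lt k (r := (2 : ℝ)) (by norm_num)
  have hpos : (0 : ℝ) < 1 / (|A| + 1) := by positivity
  filter_upwards [h.eventually_lt_const hpos] with j hj
  have h2 : (0 : ℝ) < 2 ^ j := by positivity
  rw [div_lt_div_iff₀ h2 (by positivity)] at hj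
  have h3 : A ≤ |A| := le_abs_self A
  have h4 : (0 : ℝ) ≤ (j : ℝ) ^ k := by positivity
  nlinarith

lemma S2_growth (c Cl : ℝ) : ∃ j1 : ℕ, ∀ j : ℕ, j1 ≤ j →
    1 ≤ j ∧ 2 * (j : ℝ) ^ 4 ≤ 2 ^ (j / 2) ∧ (j : ℝ) ^ 8 ≤ 2 ^ (j + 1) ∧
    (Cl * j) ^ 2 ≤ 2 ^ (j + 2) ∧ 2 / c * (j : ℝ) ^ 4 ≤ 2 ^ j ∧ Cl * j ≤ 2 ^ (j + 1) := by
  have e1 : ∀ᶠ j : ℕ in Filter.atTop, 2 * (j : ℝ) ^ 4 ≤ 2 ^ (j / 2) := by
    have h1 := S2_growth_aux 162 4
    have h2 : Filter.Tendsto (fun j : ℕ => j / 2) Filter.atTop Filter.atTop :=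
      Nat.tendsto_div_const_atTop (by norm_num)
    filter_upwards [h2.eventually h1, Filter.eventually_ge_atTop 2] with j hj hj2
    have h3 : j ≤ 3 * (j / 2) := by omega
    have h4 : (j : ℝ) ≤ 3 * ((j / 2 : ℕ) : ℝ) := by exact_mod_cast h3
    calc 2 * (j : ℝ) ^ 4 ≤ 2 * (3 * ((j / 2 : ℕ) : ℝ)) ^ 4 := by gcongr
      _ = 162 * ((j / 2 : ℕ) : ℝ) ^ 4 := by ring
      _ ≤ 2 ^ (j / 2) := hj
  have e2 := S2_growth_aux 1 8
  have e3 := S2_growth_aux (Cl ^ 2) 2
  have e4 := S2_growth_aux (2 / c) 4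
  have e6 := S2_growth_aux Cl 1
  have e := ((((Filter.eventually_ge_atTop 1).and e1).and e2).and e3).and (e4.and e6)
  obtain ⟨j1, hj1⟩ := Filter.eventually_atTop.1 e
  refine ⟨j1, fun j hj => ?_⟩
  obtain ⟨⟨⟨⟨a0, a1⟩, a2⟩, a3⟩, a4, a6⟩ := hj1 j hj
  have hp : (0 : ℝ) < 2 ^ j := by positivity
  refine ⟨a0, a1, ?_, ?_, a4, ?_⟩
  · rw [pow_succ (2 : ℝ) j]; linarith
  · rw [pow_add (2 : ℝ) j 2, mul_pow]; norm_num; linarith
  · rw [pow_succ (2 : ℝ) j]; rw [pow_one] at a6; linarith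

open Classical in
/-- Step A: the sawtooth sum of one `d` -/
lemma S2_stepA (hSB : SB_stmt) (l1 l2 R ε : ℝ) (a s : ℕ) (hs : 1 ≤ s)
    (hcop : Nat.Coprime a s) (hε : 0 ≤ ε) (happ : (s : ℝ) * |l2 / l1 - a / s| ≤ ε) (d : ℕ) :
    |SS l1 l2 (R / d) - ∑ i ∈ range ((⌊R / d / l2⌋₊ + 1) / s),
      ps (s * R / l1 / d - i * s ^ 2 * (l2 / l1))| ≤
    (∑ i ∈ range ((⌊R / d / l2⌋₊ + 1) / s), (3 * s * ε +
      if nrm (s * R / l1 / d - i * s ^ 2 * (l2 / l1)) ≤ s * ε then 1 else 0)) + s / 2 := by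
  have h1 := S2_decomp l1 l2 (R / d) s hs
  have h2 : ∀ i : ℕ, |(∑ k ∈ range s, ps ((R / d / l1 - i * s * (l2 / l1)) - k * (l2 / l1))) -
      ps (s * R / l1 / d - i * s ^ 2 * (l2 / l1))| ≤ 3 * s * ε +
      if nrm (s * R / l1 / d - i * s ^ 2 * (l2 / l1)) ≤ s * ε then 1 else 0 := by
    intro i
    have h3 := hSB s (a : ℤ) (l2 / l1) (R / d / l1 - i * s * (l2 / l1)) ε hs
      (Nat.isCoprime_iff_coprime.2 hcop) hε (by simpa using happ)
    have e : (s : ℝ) * (R / d / l1 - i * s * (l2 / l1)) =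
        s * R / l1 / d - i * s ^ 2 * (l2 / l1) := by ring
    rw [e] at h3
    exact h3
  calc |SS l1 l2 (R / d) - ∑ i ∈ range ((⌊R / d / l2⌋₊ + 1) / s),
      ps (s * R / l1 / d - i * s ^ 2 * (l2 / l1))|
      = |(∑ i ∈ range ((⌊R / d / l2⌋₊ + 1) / s),
          ((∑ k ∈ range s, ps ((R / d / l1 - i * s * (l2 / l1)) - k * (l2 / l1))) -
            ps (s * R / l1 / d - i * s ^ 2 * (l2 / l1)))) +
          (SS l1 l2 (R / d) - ∑ i ∈ range ((⌊R / d / l2⌋₊ + 1) / s), ∑ k ∈ range s,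
            ps ((R / d / l1 - i * s * (l2 / l1)) - k * (l2 / l1)))| := by
        rw [Finset.sum_sub_distrib]; congr 1; ring
    _ ≤ |∑ i ∈ range ((⌊R / d / l2⌋₊ + 1) / s),
          ((∑ k ∈ range s, ps ((R / d / l1 - i * s * (l2 / l1)) - k * (l2 / l1))) -
            ps (s * R / l1 / d - i * s ^ 2 * (l2 / l1)))| + _ := abs_add_le _ _
    _ ≤ _ := add_le_add ((Finset.abs_sum_le_sum_abs _ _).trans
        (Finset.sum_le_sum fun i _ => h2 i)) h1

/-- exchange of the two sums -/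
lemma S2_swap (n : ℕ → ℕ) (hn : ∀ d d' : ℕ, 1 ≤ d → d ≤ d' → n d' ≤ n d) (m N1 N2 : ℕ)
    (hm : ∀ d ∈ Ioc N1 N2, n d ≤ m) (g : ℕ → ℕ → ℝ) (B : ℝ)
    (hB : ∀ (i N' : ℕ), N' ≤ N2 → |∑ d ∈ Ioc N1 N', mu d * g d i| ≤ B) :
    |∑ d ∈ Ioc N1 N2, mu d * ∑ i ∈ range (n d), g d i| ≤ m * B := by
  classical
  have e1 : ∑ d ∈ Ioc N1 N2, mu d * ∑ i ∈ range (n d), g d i =
      ∑ d ∈ Ioc N1 N2, ∑ i ∈ range m, (if i < n d then mu d * g d i else 0) := by
    refine Finset.sum_congr rfl fun d hd => ?_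
    rw [Finset.mul_sum, ← Finset.sum_filter]
    refine Finset.sum_congr ?_ fun _ _ => rfl
    ext i
    simp only [Finset.mem_range, Finset.mem_filter]
    have := hm d hd
    omega
  rw [e1, Finset.sum_comm]
  calc |∑ i ∈ range m, ∑ d ∈ Ioc N1 N2, (if i < n d then mu d * g d i else 0)|
      ≤ ∑ i ∈ range m, |∑ d ∈ Ioc N1 N2, (if i < n d then mu d * g d i else 0)| :=
        Finset.abs_sum_le_sum_abs _ _
    _ ≤ ∑ i ∈ range m, B := by
        refine Finset.sum_le_sum fun i _ => ?_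
        rw [← Finset.sum_filter]
        obtain ⟨N', hN', e⟩ := S2_initial n hn i N1 N2
        rw [e]
        exact hB i N' hN'
    _ = m * B := by rw [Finset.sum_const, Finset.card_range, nsmul_eq_mul]

/-- the final numerical inequality -/
lemma S2_num (c CM R T D w ε l1 l2 s J X m : ℝ) (hc : 0 < c) (hCM : 0 < CM) (hT1 : 1 ≤ T)
    (hR : 0 < R) (hD : D = R / T) (hD1 : 1 ≤ D) (hw0 : 0 ≤ w) (hw1 : w ≤ 1) (hε0 : 0 ≤ ε)
    (hl1 : c ≤ l1) (hl2 : c ≤ l2) (hs : 1 ≤ s) (hsJ : s ≤ J) (hX : X = s * R / l1)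
    (hJT : J ^ 2 ≤ T) (hεJ : ε * J ≤ 1 / 2) (hTR : T ^ 4 ≤ R) (hm0 : 0 ≤ m)
    (hm : m ≤ T / (l2 * s) + 1) :
    m * (CM * D * w) + (m * ((D + 1) * (3 * s * ε) + (20 * (s * ε) * D + X / D + 3)) +
      (D + 1) * (s / 2)) ≤
    (CM + (26 / c + 13) + (1 / c + 1) * (1 / c + 3) + 1) * (R / (l2 * s) * w + R / J) := by
  have hs0 : 0 < s := by linarith
  have hJ1 : 1 ≤ J := by linarith
  have hJ0 : 0 < J := by linarith
  have hT0 : 0 < T := by linarith
  have hl10 : 0 < l1 := by linarith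
  have hl20 : 0 < l2 := by linarith
  have hD0 : 0 < D := by linarith
  have hls : 0 < l2 * s := by positivity
  have hJT' : J ≤ T := by nlinarith
  set u := R / (l2 * s) * w with hu
  set v := R / J with hv
  have hu0 : 0 ≤ u := by positivity
  have hv0 : 0 < v := by positivity
  have hDT : T * D = R := by rw [hD]; field_simp
  have hDv : D ≤ v := by
    rw [hD, hv]
    exact div_le_div_of_nonneg_left hR.le hJ0 hJT'
  have hmD : m * D ≤ R / (l2 * s) + D := by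
    calc m * D ≤ (T / (l2 * s) + 1) * D := by gcongr
      _ = (T * D) / (l2 * s) + D := by ring
      _ = R / (l2 * s) + D := by rw [hDT]
  -- n1
  have n1 : m * (CM * D * w) ≤ CM * (u + v) := by
    calc m * (CM * D * w) = CM * (m * D * w) := by ring
      _ ≤ CM * ((R / (l2 * s) + D) * w) := by gcongr
      _ = CM * (u + D * w) := by rw [hu]; ring
      _ ≤ CM * (u + v) := by
          have : D * w ≤ D * 1 := by gcongr
          gcongr; linarith
  have hsε : s * ε ≤ 1 / 2 := by nlinarith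
  have hsε0 : 0 ≤ s * ε := by positivity
  -- n2
  have n2 : m * ((D + 1) * (3 * s * ε) + 20 * (s * ε) * D) ≤ (26 / c + 13) * v := by
    have h1 : (D + 1) * (3 * s * ε) + 20 * (s * ε) * D ≤ 26 * (s * ε) * D := by
      nlinarith [mul_nonneg hsε0 (sub_nonneg.2 hD1)]
    have h2 : m * (26 * (s * ε) * D) ≤ 26 * (s * ε) * (R / (l2 * s) + D) := by
      calc m * (26 * (s * ε) * D) = 26 * (s * ε) * (m * D) := by ring
        _ ≤ _ := by gcongr
    have h3 : 26 * (s * ε) * (R / (l2 * s) + D) = 26 * (ε * R / l2) + 26 * (s * ε) * D := by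
      field_simp
    have h4 : ε * R / l2 ≤ v / c := by
      rw [hv, div_div, div_le_div_iff₀ hl20 (by positivity)]
      have : ε * J * c ≤ l2 := by
        calc ε * J * c ≤ 1 / 2 * l2 := by gcongr
          _ ≤ l2 := by linarith
      calc ε * R * (J * c) = R * (ε * J * c) := by ring
        _ ≤ R * l2 := by gcongr
    have h5 : 26 * (s * ε) * D ≤ 13 * v := by
      calc 26 * (s * ε) * D ≤ 26 * (1 / 2) * v := by gcongr
        _ = 13 * v := by ring
    calc m * ((D + 1) * (3 * s * ε) + 20 * (s * ε) * D) ≤ m * (26 * (s * ε) * D) := by gcongr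
      _ ≤ 26 * (ε * R / l2) + 26 * (s * ε) * D := by rw [← h3]; exact h2
      _ ≤ 26 * (v / c) + 13 * v := by linarith
      _ = (26 / c + 13) * v := by ring
  -- n3
  have n3 : m * (X / D + 3) ≤ (1 / c + 1) * (1 / c + 3) * v := by
    have h1 : X / D = s * T / l1 := by
      rw [hX, hD]; field_simp
    have h2 : s * T / l1 ≤ T ^ 2 / c := by
      have : s * T ≤ T ^ 2 := by nlinarith
      exact div_le_div₀ (by positivity) this hc hl1
    have h3 : m ≤ T / c + 1 := by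
      have : T / (l2 * s) ≤ T / c := by
        apply div_le_div_of_nonneg_left hT0.le hc
        nlinarith
      linarith
    have h4 : m * (X / D + 3) ≤ (T / c + 1) * (T ^ 2 / c + 3) := by
      rw [h1]; gcongr
    have h5 : (T / c + 1) * (T ^ 2 / c + 3) ≤ ((1 / c + 1) * T) * ((1 / c + 3) * T ^ 2) := by
      have hT2 : 1 ≤ T ^ 2 := by nlinarith
      gcongr
      · have : (1 / c + 1) * T = T / c + T := by ring
        rw [this]; linarith
      · have : (1 / c + 3) * T ^ 2 = T ^ 2 / c + 3 * T ^ 2 := by ring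
        rw [this]; linarith
    have h6 : T ^ 3 ≤ v := by
      rw [hv, le_div_iff₀ hJ0]
      calc T ^ 3 * J ≤ T ^ 3 * T := by gcongr
        _ = T ^ 4 := by ring
        _ ≤ R := hTR
    calc m * (X / D + 3) ≤ ((1 / c + 1) * T) * ((1 / c + 3) * T ^ 2) := h4.trans h5
      _ = (1 / c + 1) * (1 / c + 3) * T ^ 3 := by ring
      _ ≤ (1 / c + 1) * (1 / c + 3) * v := by gcongr
  -- n4
  have n4 : (D + 1) * (s / 2) ≤ v := by
    calc (D + 1) * (s / 2) ≤ (D + D) * (J / 2) := by gcongr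
      _ = D * J := by ring
      _ ≤ v := by
          rw [hv, hD, le_div_iff₀ hJ0, div_mul_eq_mul_div, div_mul_eq_mul_div, div_le_iff₀ hT0]
          calc R * J * J = R * J ^ 2 := by ring
            _ ≤ R * T := by gcongr
  have e : m * ((D + 1) * (3 * s * ε) + (20 * (s * ε) * D + X / D + 3)) =
      m * ((D + 1) * (3 * s * ε) + 20 * (s * ε) * D) + m * (X / D + 3) := by ring
  have hcc : 0 ≤ (26 / c + 13) * u := by positivity
  have hcd : 0 ≤ (1 / c + 1) * (1 / c + 3) * u := by positivity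
  calc m * (CM * D * w) + (m * ((D + 1) * (3 * s * ε) + (20 * (s * ε) * D + X / D + 3)) +
      (D + 1) * (s / 2))
      ≤ CM * (u + v) + (26 / c + 13) * v + (1 / c + 1) * (1 / c + 3) * v + v := by
        rw [e]; linarith
    _ ≤ (CM + (26 / c + 13) + (1 / c + 1) * (1 / c + 3) + 1) * (u + v) := by
        nlinarith

/-- **S2**: Möbius sum of the sawtooth sum of a resonant triangle. -/
theorem S2 (hSB : SB_stmt) (hMP : MP_stmt) (hNI : NI_stmt) : S2_stmt := by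
  classical
  intro c Cl hc
  obtain ⟨CM, hCM, jM, hM⟩ := hMP
  obtain ⟨jg, hg⟩ := S2_growth c Cl
  refine ⟨CM + (26 / c + 13) + (1 / c + 1) * (1 / c + 3) + 1, by positivity, max jM jg, ?_⟩
  intro j hj l1 l2 R a s N1 N2 hl1 hl2 hl1' hs hs4 hcop happ hR hN1 hN2
  have hjM : jM ≤ j := (le_max_left _ _).trans hj
  obtain ⟨g0, g1, g2, g3, g4, g6⟩ := hg j ((le_max_right _ _).trans hj)
  have hl10 : 0 < l1 := by linarith
  have hl20 : 0 < l2 := by linarith
  have hR0 : 0 < R := lt_of_lt_of_le (by positivity) hR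
  have hs1 : (1 : ℝ) ≤ s := by exact_mod_cast hs
  have hs0 : (0 : ℝ) < s := by linarith
  have hsJ : (s : ℝ) ≤ (j : ℝ) ^ 4 := by exact_mod_cast hs4
  have hj1 : (1 : ℝ) ≤ j := by exact_mod_cast g0
  have hJ0 : (0 : ℝ) < (j : ℝ) ^ 4 := by positivity
  set p : ℝ := 2 ^ j with hp
  have hp0 : 0 < p := by positivity
  have hT' : (2 : ℝ) ^ (j + 1) = 2 * p := by rw [pow_succ]; ring
  set T : ℝ := 2 ^ (j + 1) with hT
  have hT0 : 0 < T := by positivity
  have hT1 : 1 ≤ T := one_le_pow₀ (by norm_num)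
  set D : ℝ := R / T with hD
  set ε : ℝ := 1 / 2 ^ (j / 2) with hε
  have hε0 : 0 ≤ ε := by positivity
  set w : ℝ := (j : ℝ) ^ (-(1 / 5) : ℝ) with hw
  have hw0 : 0 ≤ w := by positivity
  have hw1 : w ≤ 1 := Real.rpow_le_one_of_one_le_of_nonpos hj1 (by norm_num)
  have hD12 : 2 ^ (12 * j) ≤ D := by
    rw [hD, le_div_iff₀ hT0, hT, ← pow_add]
    exact (pow_le_pow_right₀ (by norm_num) (by omega)).trans hR
  have hD1 : 1 ≤ D := (one_le_pow₀ (by norm_num)).trans hD12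
  have hTD : T * D = R := by rw [hD]; field_simp
  have hN2' : (N2 : ℝ) ≤ 2 * D := by
    refine hN2.trans (le_of_eq ?_)
    rw [hD, hT']
    field_simp
  set X : ℝ := s * R / l1 with hX
  have hX0 : 0 < X := by positivity
  have hXR : R / l1 ≤ X := by
    rw [hX]
    gcongr
    nlinarith
  have hl1C : 0 < Cl * j := lt_of_lt_of_le hl10 hl1'
  have hXD : D ≤ X := by
    refine le_trans ?_ hXR
    rw [hD]
    exact div_le_div_of_nonneg_left hR0.le hl10 (hl1'.trans g6)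
  have hX1 : D ^ 2 * 2 ^ j ≤ X ^ 2 := by
    have h1 : (R / l1) ^ 2 ≤ X ^ 2 := by gcongr
    refine le_trans ?_ h1
    have h2 : l1 ^ 2 ≤ 4 * p := by
      calc l1 ^ 2 ≤ (Cl * j) ^ 2 := by gcongr
        _ ≤ 2 ^ (j + 2) := g3
        _ = 4 * p := by rw [pow_add, hp]; ring
    rw [hD, hT', div_pow, div_pow, ← hp, div_mul_eq_mul_div, div_le_div_iff₀ (by positivity)
      (by positivity)]
    calc R ^ 2 * p * l1 ^ 2 ≤ R ^ 2 * p * (4 * p) := by gcongr
      _ = R ^ 2 * (2 * p) ^ 2 := by ring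
  have hX2 : X ≤ 2 ^ (2 * j) * D := by
    have h1 : (2 : ℝ) ^ (2 * j) = p * p := by rw [hp, two_mul, pow_add]
    rw [h1, hD, hT', hX]
    have h2 : p * p * (R / (2 * p)) = p / 2 * R := by field_simp
    rw [h2]
    have h3 : (j : ℝ) ^ 4 / c ≤ p / 2 := by
      have : 2 / c * (j : ℝ) ^ 4 = 2 * ((j : ℝ) ^ 4 / c) := by ring
      linarith
    calc s * R / l1 ≤ (j : ℝ) ^ 4 * R / c := by gcongr
      _ = (j : ℝ) ^ 4 / c * R := by ring
      _ ≤ p / 2 * R := by gcongr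
  have hεJ : ε * (j : ℝ) ^ 4 ≤ 1 / 2 := by
    rw [hε, one_div, inv_mul_le_iff₀ (by positivity)]
    linarith
  have hδ : (s : ℝ) * ε ≤ 1 / 2 := by
    calc (s : ℝ) * ε ≤ (j : ℝ) ^ 4 * ε := by gcongr
      _ = ε * (j : ℝ) ^ 4 := by ring
      _ ≤ 1 / 2 := hεJ
  have hδ0 : 0 ≤ (s : ℝ) * ε := by positivity
  -- the numbers of blocks
  set n : ℕ → ℕ := fun d => (⌊R / d / l2⌋₊ + 1) / s with hn
  have hanti : ∀ d d' : ℕ, 1 ≤ d → d ≤ d' → n d' ≤ n d := by
    intro d d' h1 h2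
    apply Nat.div_le_div_right
    have h3 : (d : ℝ) ≤ d' := by exact_mod_cast h2
    have h4 : (0 : ℝ) < d := by exact_mod_cast h1
    have h5 : R / d' / l2 ≤ R / d / l2 := by gcongr
    exact Nat.add_le_add_right (Nat.floor_le_floor h5) 1
  set m : ℕ := ⌊T / (l2 * s) + 1⌋₊ with hm
  have hm1 : (m : ℝ) ≤ T / (l2 * s) + 1 := Nat.floor_le (by positivity)
  have hdD : ∀ d ∈ Ioc N1 N2, D ≤ (d : ℝ) := by
    intro d hd
    rw [Finset.mem_Ioc] at hd
    have : (N1 : ℝ) + 1 ≤ d := by exact_mod_cast hd.1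
    linarith
  have hnm : ∀ d ∈ Ioc N1 N2, n d ≤ m := by
    intro d hd
    have hdD' := hdD d hd
    have hd0 : (0 : ℝ) < d := by linarith
    apply Nat.le_floor
    have h1 : ((n d : ℕ) : ℝ) ≤ ((⌊R / d / l2⌋₊ + 1 : ℕ) : ℝ) / s := Nat.cast_div_le
    have h2 : ((⌊R / d / l2⌋₊ + 1 : ℕ) : ℝ) ≤ R / d / l2 + 1 := by
      push_cast
      have := Nat.floor_le (a := R / d / l2) (by positivity)
      linarith
    have h3 : R / d ≤ T := by
      rw [div_le_iff₀ hd0, ← hTD]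
      gcongr
    calc ((n d : ℕ) : ℝ) ≤ (R / d / l2 + 1) / s := h1.trans (by gcongr)
      _ ≤ (T / l2 + 1) / s := by gcongr
      _ = T / (l2 * s) + 1 / s := by rw [add_div, div_div]
      _ ≤ T / (l2 * s) + 1 := by
          have : 1 / (s : ℝ) ≤ 1 := by rw [div_le_one hs0]; exact hs1
          linarith
  set g : ℕ → ℕ → ℝ := fun d i => ps (X / d - i * s ^ 2 * (l2 / l1)) with hgd
  set e : ℕ → ℕ → ℝ := fun d i => 3 * s * ε +
    if nrm (X / d - i * s ^ 2 * (l2 / l1)) ≤ s * ε then 1 else 0 with hed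
  have he0 : ∀ d i, 0 ≤ e d i := by
    intro d i
    simp only [hed]
    split_ifs <;> positivity
  have hA : ∀ d : ℕ, |SS l1 l2 (R / d) - ∑ i ∈ range (n d), g d i| ≤
      (∑ i ∈ range (n d), e d i) + s / 2 := fun d =>
    S2_stepA hSB l1 l2 R ε a s hs hcop hε0 happ d
  -- the main term
  have hmain : |∑ d ∈ Ioc N1 N2, mu d * ∑ i ∈ range (n d), g d i| ≤ m * (CM * D * w) := by
    apply S2_swap n hanti m N1 N2 hnm
    intro i N' hN'
    have h1 : (N' : ℝ) ≤ 2 * D := by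
      have : (N' : ℝ) ≤ N2 := by exact_mod_cast hN'
      linarith
    exact hM j hjM D X (i * s ^ 2 * (l2 / l1)) N1 N' hD12 hX0 hX1 hX2 hN1 h1
  -- the number of `d`
  have hcard : ((Ioc N1 N2).card : ℝ) ≤ D + 1 := by
    rw [Nat.card_Ioc]
    rcases le_total N1 N2 with h | h
    · rw [Nat.cast_sub h]; linarith
    · rw [Nat.sub_eq_zero_of_le h]; norm_num; linarith
  -- the error term
  have herr : |∑ d ∈ Ioc N1 N2, mu d * (SS l1 l2 (R / d) - ∑ i ∈ range (n d), g d i)| ≤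
      m * ((D + 1) * (3 * s * ε) + (20 * (s * ε) * D + X / D + 3)) + (D + 1) * (s / 2) := by
    have h1 : |∑ d ∈ Ioc N1 N2, mu d * (SS l1 l2 (R / d) - ∑ i ∈ range (n d), g d i)| ≤
        ∑ d ∈ Ioc N1 N2, ((∑ i ∈ range m, e d i) + s / 2) := by
      refine (Finset.abs_sum_le_sum_abs _ _).trans (Finset.sum_le_sum fun d hd => ?_)
      rw [abs_mul]
      have h2 : (∑ i ∈ range (n d), e d i) ≤ ∑ i ∈ range m, e d i :=
        Finset.sum_le_sum_of_subset_of_nonneg (Finset.range_mono (hnm d hd))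
          (fun i _ _ => he0 d i)
      calc |mu d| * |SS l1 l2 (R / d) - ∑ i ∈ range (n d), g d i|
          ≤ 1 * ((∑ i ∈ range (n d), e d i) + s / 2) :=
            mul_le_mul (S2_mu_abs d) (hA d) (abs_nonneg _) (by norm_num)
        _ ≤ _ := by linarith
    refine h1.trans ?_
    rw [Finset.sum_add_distrib, Finset.sum_comm, Finset.sum_const, nsmul_eq_mul]
    have h3 : ∀ i ∈ range m, ∑ d ∈ Ioc N1 N2, e d i ≤
        (D + 1) * (3 * s * ε) + (20 * (s * ε) * D + X / D + 3) := by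
      intro i _
      have h4 : ∑ d ∈ Ioc N1 N2, e d i = ((Ioc N1 N2).card : ℝ) * (3 * s * ε) +
          (((Ioc N1 N2).filter (fun d : ℕ =>
            nrm (X / d - i * s ^ 2 * (l2 / l1)) ≤ s * ε)).card : ℝ) := by
        simp only [hed]
        rw [Finset.sum_add_distrib, Finset.sum_const, nsmul_eq_mul, Finset.sum_boole]
      rw [h4]
      have h5 := hNI X D (i * s ^ 2 * (l2 / l1)) (s * ε) N1 N2 hD1 hXD hδ0 hδ hN1 hN2'
      have h6 : (((Ioc N1 N2).filter (fun d : ℕ =>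
          nrm (X / d - i * s ^ 2 * (l2 / l1)) ≤ s * ε)).card : ℝ) ≤
          20 * (s * ε) * D + X / D + 3 := by
        refine le_trans (le_of_eq ?_) h5
        congr
      have h7 : ((Ioc N1 N2).card : ℝ) * (3 * s * ε) ≤ (D + 1) * (3 * s * ε) := by gcongr
      linarith
    have h8 := Finset.sum_le_sum h3
    rw [Finset.sum_const, Finset.card_range, nsmul_eq_mul] at h8
    have h9 : ((Ioc N1 N2).card : ℝ) * (s / 2) ≤ (D + 1) * (s / 2) := by gcongr
    linarith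
  have hTR : T ^ 4 ≤ R := by
    rw [hT, ← pow_mul]
    exact (pow_le_pow_right₀ (by norm_num) (by omega)).trans hR
  have hJT : ((j : ℝ) ^ 4) ^ 2 ≤ T := by rw [← pow_mul]; exact g2
  have hnum := S2_num c CM R T D w ε l1 l2 s ((j : ℝ) ^ 4) X m hc hCM hT1 hR0 hD hD1 hw0 hw1
    hε0 hl1 hl2 hs1 hsJ hX hJT hεJ hTR (by positivity) hm1
  have hsplit : ∑ d ∈ Ioc N1 N2, mu d * SS l1 l2 (R / d) =
      ∑ d ∈ Ioc N1 N2, mu d * ∑ i ∈ range (n d), g d i +
      ∑ d ∈ Ioc N1 N2, mu d * (SS l1 l2 (R / d) - ∑ i ∈ range (n d), g d i) := by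
    rw [← Finset.sum_add_distrib]
    refine Finset.sum_congr rfl fun d _ => ?_
    ring
  rw [hsplit]
  exact (abs_add_le _ _).trans ((add_le_add hmain herr).trans hnum)

end AM
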